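import Pool.Agent.Q26.PD.LF6
import Pool.Agent.Q26.PD.AU

/-!
# Goldbach's problem with a common prime for almost all vectors of elements of automatic sets

Definitions used (all in `Pool.Agent.Q26.PD.Sys`), for vectors `n, d` of `s` integers:
* `count n d N`: the number of the primes `q ≤ N` for which all `n i + q d i` are (positive) primes; for `d i = -1` these
  are the primes `q ≤ N` for which all `n i` are sums of `q` and another prime;
* `nu n d p`: the number `ν(p)` of the residues `r` modulo `p` for which `p` divides `r (n 1 + r d 1) ... (n s + r d s)`;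
* `Adm n d`: `ν(p) < p` for all primes `p` (there is no local obstruction; for `s = 1`, `d = -1`: `n` is even);
* `sing n d z`: the product over the primes `p ≤ z` of `(1 - ν(p) / p) / (1 - 1 / p) ^ (s + 1)`;
* `Formula ε m X n d`: if `Adm n d`, then `sing n d z` converges for `z → ∞` to some `G > 0`, and
  `|count n d N - G N / log ^ (s + 1) N| ≤ ε G N / log ^ (s + 1) N` for all `N ≤ X` with `X ≤ m N` for which all
  `n i + q d i` with `1 ≤ q ≤ N` are positive;
* `AllFormulas ε m X D n`: `Formula ε m X n d` holds for ALL vectors `d` of integers with `1 ≤ |d i| ≤ D`.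
-/

set_option autoImplicit false

namespace Pool.Agent.Results.MP_967f73_nt.AutomaticSystems

open Finset Pool.Agent.Q26.PD.Sys

open Classical in
/-- The elements `v < X` of the automatic set given by the base `b` and the automaton `M`: the integers whose base
`b` digits are accepted by `M`. -/
noncomputable def aut {σ : Type} (b : ℕ) (M : DFA ℕ σ) (X : ℕ) : Finset ℕ :=
  (range X).filter fun v => Nat.digits b v ∈ M.accepts

open Classical in
/-- Let `s ≥ 1`, and let `A 1, ..., A s` be automatic sets, in arbitrary bases `b i ≥ 2`, which are not sparse: the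
number of the elements of `A i` below `X` is not bounded by a power of `log X`. Let the integers `κ i ≠ 0`, `D ≥ 1`, `B`,
`m ≥ 1`, `U` and `ε > 0` be fixed. Let `X` be large, and let the integers `c i` with `|c i| ≤ B X` be arbitrary. All the
vectors `(v 1, ..., v s)` of elements `v i < X` of `A i`, with the exception of a proportion of at most `1 / log ^ U X` of
these vectors, have the following property. Let `n i = c i + κ i v i`. Then, for ALL vectors `(d 1, ..., d s)` of integers
with `1 ≤ |d i| ≤ D` for which the system of the equations `n i = |d i| q + q i` (if `d i < 0`), `n i = q i - d i q`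
(if `d i > 0`) in primes `q, q 1, ..., q s` has no local obstruction, the number of its solutions with `q ≤ N` satisfies
the asymptotic formula of Hardy and Littlewood with a relative error of at most `ε`, for all `N` between `X / m` and `X`
for which the numbers `n i + q d i` with `1 ≤ q ≤ N` are positive. (For `d i = -1` for all `i`, all the `n i` are sums of
two primes with a common summand `q`.) For `s = 1` and `d = -1` there is no local obstruction exactly if `n` is even. -/
theorem result :
    (∀ (s : ℕ), 1 ≤ s → ∀ (b : Fin s → ℕ), (∀ i, 2 ≤ b i) → ∀ (σ : Fin s → Type), (∀ i, Finite (σ i)) →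
      ∀ M : ∀ i, DFA ℕ (σ i),
      (∀ i, ∀ k : ℕ, ∃ᶠ X : ℕ in Filter.atTop, Real.log X ^ k < ((aut (b i) (M i) X).card : ℝ)) →
      ∀ (κ : Fin s → ℤ), (∀ i, κ i ≠ 0) → ∀ (D B m U : ℕ), 1 ≤ D → 1 ≤ m → ∀ ε : ℝ, 0 < ε →
      ∃ X₀ : ℕ, ∀ X, X₀ ≤ X → ∀ c : Fin s → ℤ, (∀ i, |c i| ≤ (B : ℤ) * X) →
        (((Fintype.piFinset fun i => aut (b i) (M i) X).filter fun v =>
          ¬ AllFormulas ε m X D (fun i => c i + κ i * (v i : ℤ))).card : ℝ) ≤
        ((Fintype.piFinset fun i => aut (b i) (M i) X).card : ℝ) / Real.log X ^ U) ∧
    (∀ n : ℤ, Adm (fun _ : Fin 1 => n) (fun _ => -1) ↔ 2 ∣ n) := by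
  refine ⟨fun s hs b hb σ hσ M hM κ hκ D B m U hD hm ε hε => ?_, fun n => ?_⟩
  · have haut := fun i => Pool.Agent.Q26.PD.autZ (b i) (hb i) (M i) (fun k => hM i k) (κ i) (hκ i)
    choose Bv hBv using haut
    obtain ⟨X₀, h⟩ := Pool.Agent.Q26.PD.lf_fam true s hs κ hκ Bv _ hBv D B m U hD hm ε hε
    refine ⟨X₀ + 1, fun X hX c hc => ?_⟩
    refine le_trans ?_ (h X (by omega) (fun i => aut (b i) (M i) X) (fun i => rfl) c hc)
    apply Nat.cast_le.2
    apply card_le_card
    intro v hv
    rw [mem_filter] at hv ⊢
    exact ⟨hv.1, fun hg => hv.2 (of_good ε m X D _ (by omega) hg)⟩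
  · rw [adm_one]
    constructor
    · rintro ⟨_, h⟩
      rwa [mul_neg, mul_one, dvd_neg] at h
    · intro h
      refine ⟨isCoprime_one_right.neg_right, ?_⟩
      rwa [mul_neg, mul_one, dvd_neg]

end Pool.Agent.Results.MP_967f73_nt.AutomaticSystems
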